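import Pool.Agent.X249.PP.MainOut

/-!
# The pooling problem with one quality and out-degrees at most two is NP-hard

The reduction is from INDEPENDENT SET. There is a pool for every vertex; it has a private input of
quality `0` and capacity `1`, an output with bound `0` and capacity `1` whose arc earns `1` per
unit, and an output with bound `1`. Every edge is an input of quality `1` and capacity `1`, with
arcs to the pools of its ends which earn `1` per unit. A pool which receives any flow from the edge
inputs cannot send flow to its first output; so the pools without such flow, up to one vertex for
every edge whose input is not used, form an independent set.
-/

namespace Pool.Agent.Results.MP_743dc4_lc.OutDegreeTwoNPHard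

open Pool.Agent.NPC Pool.Agent.X249.PP

/-- The pooling problem with one quality and all out-degrees at most two is NP-hard. -/
theorem result : NPHardP PoolingOutTwo := hard_out.toNPHardP

end Pool.Agent.Results.MP_743dc4_lc.OutDegreeTwoNPHard
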